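import Mathlib
import Pool.Agent.W262.S3.All
import Pool.Agent.W262.TW.Ex3
import Pool.Agent.W623.SecE.Loc

/-!
# The section conjecture for 100% of the quadratic twists, everywhere locally soluble or not

Let `f ∈ ℚ[x]` be squarefree of degree at least 4, with all irreducible factors of even degree.
Then for all squarefree `d`, `|d| ≤ X`, with at most `C X (log X)^(-δ)` exceptions, and all even
`n ≥ 2` the curve `d yⁿ = f(x)` has no rational point and its fundamental group has no section, also
when any set of closed points of the curve is removed.  So these curves, and all smooth curves over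
`ℚ` that dominate one of them, satisfy the section conjecture.

There are `f` with a root in `ℝ` and in all `ℚ_p`, such as `(x² - 13)((x - 1)² - 17)((x - 2)² - 221)`;
then all the curves have points everywhere locally, and the obstruction is a global one.

The fundamental group is described through valuations.  Let `U` be a smooth geometrically connected
curve over `k` with function field `F`, let `Ω` be an algebraic closure of `F`, and let `F_U` be the
maximal extension of `F` inside `Ω` which is unramified over the closed points of `U`, that is, over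
their local rings, which are valuation rings of `F`.  Then `π₁(U) = Gal(F_U/F)`, and the map
`π₁(U) → G_k` is the restriction of automorphisms to the algebraic closure of `k` in `Ω`.

Proof.  Let `f = b ∏ f_k` with `f_k` irreducible.  A section `s` for `d` gives square classes `s_k` of
rational numbers with product `d` and elements `β_k` of `F_U` fixed by `s` with `s_k β_k² = f_k(x)`.
At a prime `p` of good reduction not dividing `d` the `s_k` have even valuation.  If `p` divides `d`,
then by the theory of the sections at a place of multiplicative type (parts SecC, SecE of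
helper623: canonical signs for the square roots of the functions `1/(x - θ)`) there is a root `θ` of
one `f_i` modulo `p` such that `s_k f_k(θ)` is a square modulo `p` for all `k ≠ i`.  So `p` divides
only `s_i`, and the signs `(s_k/p)`, `k ≠ i`, take values in a set of vectors defined by the roots of
`f_i` modulo `p`.  The number of such vectors `(s_k)` with `|∏ s_k| ≤ X` is bounded as in the proof of
`Results/MP_d37f77_nt/AlmostAllTwists.lean` (part TW): bilinear sums of Jacobi symbols and the
Chebotarev theorem.
-/

open Polynomial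

namespace Pool.Agent.Results.MP_2f3286_ag.AllEvenFactors

universe u v w

section definitions

variable (k : Type u) (F : Type v) (Ω : Type w) [Field k] [Field F] [Field Ω] [Algebra k F]
  [Algebra F Ω] [Algebra k Ω]

/-- The inertia group of the valuation ring `W` of `Ω`, as a subgroup of `Gal(Ω/F)`: the
automorphisms of `Ω` over `F` that map `W` onto itself and act as the identity on its residue
field. -/
noncomputable def inertia (W : ValuationSubring Ω) : Subgroup (Ω ≃ₐ[F] Ω) :=
  (W.inertiaSubgroup F).map (W.decompositionSubgroup F).subtype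

/-- `F_U`, for a set `U` of valuation rings of `F`: the elements of `Ω` fixed by the inertia groups
of all valuation rings `W` of `Ω` with `W ∩ F ∈ U`.  If `Ω` is an algebraic closure of a field `F`
of characteristic zero, this is the maximal extension of `F` in `Ω` unramified over `U`. -/
noncomputable def unramified (U : Set (ValuationSubring F)) : IntermediateField F Ω :=
  ⨅ W : {W : ValuationSubring Ω // W.comap (algebraMap F Ω) ∈ U},
    IntermediateField.fixedField (inertia F Ω W.1)

/-- The map `τ : M → M` acts as `σ : K → K` on the elements that the fields `K` and `M` have in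
common when they are regarded as subfields of `Ω` through `i` and `j`. -/
def ActsAs {K M Ω : Type*} [Field K] [Field M] [Field Ω] (i : K →+* Ω) (j : M →+* Ω) (σ : K → K)
    (τ : M → M) : Prop :=
  ∀ c z, j z = i c → j (τ z) = i (σ c)

/-- Let `k ⊆ K ⊆ Ω` and `F ⊆ M ⊆ Ω` be fields.  A splitting of `Gal(M/F) → Gal(K/k)`: a continuous
homomorphism `s` from `Gal(K/k)` to `Gal(M/F)` such that `s(σ)` acts as `σ` on the elements of
`K ∩ M`. -/
structure Splitting (K M : Type*) [Field K] [Field M] [Algebra k K] [Algebra F M] [Algebra K Ω]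
    [Algebra M Ω] where
  /-- the homomorphism `Gal(K/k) → Gal(M/F)` -/
  toHom : (K ≃ₐ[k] K) →* (M ≃ₐ[F] M)
  cont : Continuous toHom
  compat : ∀ σ : K ≃ₐ[k] K, ActsAs (algebraMap K Ω) (algebraMap M Ω) σ (toHom σ)

/-- The sections of `π₁(U) = Gal(F_U/F) → G_k`: the continuous homomorphisms `s` from
`G_k = Gal(k̄/k)` to `Gal(F_U/F)`, where `k̄` is the algebraic closure of `k` in `Ω`, such that
`s(σ)` acts as `σ` on the elements of `k̄`. -/
def GaloisSection (U : Set (ValuationSubring F)) : Type w :=
  Splitting k F Ω (algebraicClosure k Ω) (unramified F Ω U)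

end definitions

/-- The smooth projective curve `a yⁿ = f(x)`, where `n` divides the degree of `f`, has no point
over `k`: neither in the affine part nor at infinity. -/
def NoPoint {k : Type u} [Field k] (n : ℕ) (a : k) (f : k[X]) : Prop :=
  (¬ ∃ x y : k, a * y ^ n = f.eval x) ∧ ¬ ∃ r : k, a * r ^ n = f.leadingCoeff

/-- Let `F` be any field over `k` that contains a point `(x, y)` of the curve `a yⁿ = f(x)`, for
instance the function field of the curve, and let `Ω` be an algebraic closure of `F`.  Then for
every set `U` of valuation rings of `F` over `k` there is no section of `π₁(U) → G_k`.  If `F` is the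
function field of the curve, such `U` are given by the smooth projective curve and by all its open
subcurves. -/
def NoSection {k : Type u} [Field k] (n : ℕ) (a : k) (f : k[X]) : Prop :=
  ∀ (F : Type v) (Ω : Type w) [Field F] [Field Ω] [Algebra k F] [Algebra F Ω] [Algebra k Ω]
    [IsScalarTower k F Ω] [IsAlgClosure F Ω] (x y : F) (U : Set (ValuationSubring F)),
    algebraMap k F a * y ^ n = aeval x f → (∀ O ∈ U, ∀ c : k, algebraMap k F c ∈ O) →
      IsEmpty (GaloisSection k F Ω U)

/-- For some even `n ≥ 2` the curve `d yⁿ = f(x)` has a rational point or a section. -/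
def Exceptional (f : ℚ[X]) (d : ℤ) : Prop :=
  ∃ n : ℕ, 0 < n ∧ Even n ∧ ¬ (NoPoint n (d : ℚ) f ∧ NoSection.{0, v, w} n (d : ℚ) f)

lemma noSection_of {k : Type u} [Field k] {n m : ℕ} {a : k} {f : k[X]} (hn : n = m + m)
    (h : ∀ (F : Type v) (Ω : Type w) [Field F] [Field Ω] [Algebra k F] [Algebra F Ω] [Algebra k Ω]
      [IsScalarTower k F Ω] [IsAlgClosed Ω] [Algebra.IsAlgebraic F Ω]
      (U : Set (ValuationSubring F)) (x y : F), (∀ O ∈ U, ∀ c : k, algebraMap k F c ∈ O) →
      Nonempty (Pool.Agent.W620.SC.GSection k F Ω U) → algebraMap k F a * y ^ 2 ≠ aeval x f) :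
    NoSection.{u, v, w} n a f := by
  intro F Ω _ _ _ _ _ _ _ x y U hxy hU
  have hcl : IsAlgClosed Ω := IsAlgClosure.isAlgClosed F
  have halg : Algebra.IsAlgebraic F Ω := IsAlgClosure.isAlgebraic
  refine ⟨fun s => ?_⟩
  refine h F Ω U x (y ^ m) hU ⟨⟨s.toHom, s.cont, s.compat⟩⟩ ?_
  rw [← hxy, ← pow_mul, mul_two, hn]

/-- All irreducible factors of `f` over `ℚ` have even degree. -/
def EvenFactors (f : ℚ[X]) : Prop := ∀ g : ℚ[X], Irreducible g → g ∣ f → Even g.natDegree

/-- `(x² - 13)((x - 1)² - 17)((x - 2)² - 221)` -/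
noncomputable def ex : ℚ[X] := (X ^ 2 - 13) * ((X - 1) ^ 2 - 17) * ((X - 2) ^ 2 - 221)

lemma ex_eq_prod : ex = ∏ k, (Pool.Agent.W262.TW.ex k).map (Int.castRingHom ℚ) := by
  rw [Fin.prod_univ_three]
  simp [ex, Pool.Agent.W262.TW.ex]

lemma ex_even : EvenFactors ex := by
  intro g hg hdvd
  rw [ex_eq_prod] at hdvd
  obtain ⟨k, -, hk⟩ := (hg.prime.dvd_finsetProd_iff _).1 hdvd
  have h1 : Associated g ((Pool.Agent.W262.TW.ex k).map (Int.castRingHom ℚ)) :=
    hg.associated_of_dvd (Pool.Agent.W262.TW.ex_irr k) hk
  rw [natDegree_eq_of_degree_eq (degree_eq_degree_of_associated h1),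
    Pool.Agent.W262.TW.ex_natDegree']
  exact even_two

lemma ex_squarefree : Squarefree ex := by
  rw [ex_eq_prod]
  refine Finset.squarefree_prod_of_pairwise_isCoprime ?_ fun k _ =>
    (Pool.Agent.W262.TW.ex_irr k).squarefree
  intro k _ l _ hkl
  refine ((Pool.Agent.W262.TW.ex_irr k).isRelPrime_iff_not_dvd).2 fun hdvd => ?_
  exact Pool.Agent.W262.TW.ex_ass k l hkl ((Pool.Agent.W262.TW.ex_irr k).associated_of_dvd
    (Pool.Agent.W262.TW.ex_irr l) hdvd)

lemma ex_natDegree : ex.natDegree = 6 := by
  rw [ex_eq_prod, natDegree_prod _ _ fun k _ => (Pool.Agent.W262.TW.ex_irr k).ne_zero]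
  simp [Pool.Agent.W262.TW.ex_natDegree']

lemma ex_root {L : Type*} [Field L] [Algebra ℚ L] (k : Fin 3) (z : L)
    (hz : z ^ 2 = (Pool.Agent.W262.TW.exn k : L)) :
    aeval ((Pool.Agent.W262.TW.exa k : L) + z) ex = 0 := by
  rw [ex_eq_prod, map_prod]
  refine Finset.prod_eq_zero (Finset.mem_univ k) ?_
  rw [Pool.Agent.W262.TW.ex_eq]
  simp [hz]

/-- (1) Let `f ∈ ℚ[x]` be squarefree of degree at least 4 with all irreducible factors of even
degree.  Then for all squarefree `d`, `|d| ≤ X`, with at most `C X (log X)^(-δ)` exceptions, and all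
even `n ≥ 2`, the curve `d yⁿ = f(x)` has no rational point, and the fundamental groups of its open
subcurves and of all smooth curves over `ℚ` that dominate it have no sections.  (2) The polynomial
`ex` satisfies the hypotheses and has a root in `ℝ` and in all `ℚ_p`, so that all curves
`d yⁿ = ex(x)` have points everywhere locally. -/
theorem result :
    (∀ f : ℚ[X], Squarefree f → 4 ≤ f.natDegree → EvenFactors f →
      ∃ δ : ℝ, 0 < δ ∧ ∃ C : ℝ, ∀ X : ℕ, 2 ≤ X →
        ({d : ℤ | d.natAbs ≤ X ∧ Squarefree d ∧ Exceptional.{v, w} f d}.ncard : ℝ) ≤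
          C * X * (Real.log X) ^ (-δ)) ∧
    (Squarefree ex ∧ ex.natDegree = 6 ∧ EvenFactors ex ∧ (∃ x : ℝ, aeval x ex = 0) ∧
      ∀ (p : ℕ) [Fact p.Prime], ∃ x : ℚ_[p], aeval x ex = 0) := by
  refine ⟨fun f hf h4 hev => ?_, ex_squarefree, ex_natDegree, ex_even, ?_, fun p hp => ?_⟩
  · obtain ⟨δ, hδ, C, hC⟩ := Pool.Agent.W262.S3.final.{v, w}
      (Pool.Agent.W262.S3.arith3 Pool.Agent.W623.SecE.secglob Pool.Agent.W623.SecE.secpt
        Pool.Agent.W623.SecE.secloc) f hf h4 hev
    refine ⟨δ, hδ, C, fun X hX => le_trans ?_ (hC X hX)⟩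
    have hsub : {d : ℤ | d.natAbs ≤ X ∧ Squarefree d ∧ Exceptional.{v, w} f d} ⊆
        {d : ℤ | d.natAbs ≤ X ∧ Squarefree d ∧ Pool.Agent.W262.S3.Bad.{v, w} f d} := by
      rintro d ⟨hd1, hd2, n, hn, ⟨m, rfl⟩, hne⟩
      refine ⟨hd1, hd2, ?_⟩
      by_contra hbad
      apply hne
      unfold Pool.Agent.W262.S3.Bad at hbad
      push Not at hbad
      obtain ⟨h1, h2, h3⟩ := hbad
      refine ⟨⟨?_, ?_⟩, ?_⟩
      · rintro ⟨x, y, hxy⟩
        apply h1 x (y ^ m)
        rw [← hxy, ← pow_mul, mul_two]
      · rintro ⟨r, hr⟩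
        apply h2 (r ^ m)
        rw [← hr, ← pow_mul, mul_two]
      · refine noSection_of rfl ?_
        intro F Ω _ _ _ _ _ _ hcl halg U x y hU hG
        exact h3 F Ω inferInstance inferInstance inferInstance inferInstance inferInstance
          inferInstance hcl halg U x y hU hG
    have hfin : {d : ℤ | d.natAbs ≤ X ∧ Squarefree d ∧
        Pool.Agent.W262.S3.Bad.{v, w} f d}.Finite := by
      refine (Finset.finite_toSet (Finset.Icc (-(X : ℤ)) X)).subset ?_
      rintro d ⟨hd1, -⟩
      rw [Finset.mem_coe, Finset.mem_Icc]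
      omega
    exact_mod_cast Set.ncard_le_ncard hsub hfin
  · refine ⟨_, ex_root 0 (Real.sqrt 13) ?_⟩
    rw [Real.sq_sqrt (by norm_num)]
    simp [Pool.Agent.W262.TW.exn]
  · obtain ⟨k, z, hz⟩ := Pool.Agent.W262.TW.padic_ex p
    refine ⟨_, ex_root k (z : ℚ_[p]) ?_⟩
    have h9 := congrArg (fun t : ℤ_[p] => (t : ℚ_[p])) hz
    simp only [PadicInt.coe_pow, PadicInt.coe_intCast] at h9
    exact h9

end Pool.Agent.Results.MP_2f3286_ag.AllEvenFactors
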