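import Pool.Agent.W620.SC.Sep
import Pool.Agent.W620.SC.Exist

/-!
# The section conjecture for explicit everywhere locally soluble curves over every number field

Let `k` be a number field, let `p`, `q` be primes `≡ 1 mod 4` with `(q/p) = 1`, and let `a ∈ k^*` be
such that the number of prime factors `l`, with multiplicity, of the numerator and the denominator
of `N_{k/ℚ}(a)` with `(l/p) = (l/q) = -1` is odd.  Let `S`, `T`, `R` be nonempty finite subsets of
`k` such that `i + j ≠ 0` for all `i`, `j` in the same set.  Put
`f = ∏_{j ∈ S} (x² - p j²) ∏_{j ∈ T} (x² - q j²) ∏_{j ∈ R} (x² - p q j²)`.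

The curve `a y² = f(x)` has genus `|S| + |T| + |R| - 1 ≥ 2`.  It has points over all completions of
`k` and no point over `k`.  We show that the fundamental group of the affine curve, and for even
`|S|`, `|T|`, `|R|` also that of the projective curve, has no section at all.  So the section
conjecture holds for these curves: both sides are empty.  The same holds for every smooth curve
that maps to one of them, with `y` not mapping to zero identically.

The fundamental group is described through valuations.  Let `U` be a smooth geometrically connected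
curve over `k` with function field `F`, let `Ω` be an algebraic closure of `F`, and let `F_U` be the
maximal extension of `F` inside `Ω` which is unramified over the closed points of `U`, that is, over
their local rings, which are valuation rings of `F`.  Then `π₁(U) = Gal(F_U/F)`, and the map
`π₁(U) → G_k` is the restriction of automorphisms to the algebraic closure of `k` in `Ω`.

Proof.  Let `θ₁² = p`, `θ₂² = q`, `θ₃² = p q`.  The function `h_i = ∏_j (x - j θ_i)` on the curve has
an even divisor, so `w_i = √h_i` lies in `F_U`.  Let `s` be a section.  Over an open subgroup of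
`G_k` it fixes `w_i`; Hilbert 90 gives a constant `b_i` such that `b_i w_i` is fixed by
`s(Gal(k̄/k(θ_i)))`.  The norms of the `b_i w_i` multiply to an element whose square is `a y²` times
the norms of the `b_i²`, and this gives `a = r² N(c₁) N(c₂) N(c₃)` with `r ∈ k` and `c_i ∈ k(θ_i)`.
Taking norms to `ℚ` one finds the same over `ℚ` for `N_{k/ℚ}(a)`, and quadratic reciprocity shows
that this contradicts the parity condition on `a`.
-/

open Polynomial

namespace Pool.Agent.Results.MP_2f3286_ag.LocallySolubleFamily

universe u v w x

section definitions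

variable (k : Type u) (F : Type v) (Ω : Type w) [Field k] [Field F] [Field Ω] [Algebra k F]
  [Algebra F Ω] [Algebra k Ω]

/-- The inertia group of the valuation ring `W` of `Ω`, as a subgroup of `Gal(Ω/F)`: the
automorphisms of `Ω` over `F` that map `W` onto itself and act as the identity on its residue
field. -/
noncomputable def inertia (W : ValuationSubring Ω) : Subgroup (Ω ≃ₐ[F] Ω) :=
  (W.inertiaSubgroup F).map (W.decompositionSubgroup F).subtype

/-- `F_U`, for a set `U` of valuation rings of `F`: the elements of `Ω` fixed by the inertia groups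
of all valuation rings `W` of `Ω` with `W ∩ F ∈ U`.  If `Ω` is an algebraic closure of a field `F`
of characteristic zero, this is the maximal extension of `F` in `Ω` unramified over `U`. -/
noncomputable def unramified (U : Set (ValuationSubring F)) : IntermediateField F Ω :=
  ⨅ W : {W : ValuationSubring Ω // W.comap (algebraMap F Ω) ∈ U},
    IntermediateField.fixedField (inertia F Ω W.1)

/-- The map `τ : M → M` acts as `σ : K → K` on the elements that the fields `K` and `M` have in
common when they are regarded as subfields of `Ω` through `i` and `j`. -/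
def ActsAs {K M Ω : Type*} [Field K] [Field M] [Field Ω] (i : K →+* Ω) (j : M →+* Ω) (σ : K → K)
    (τ : M → M) : Prop :=
  ∀ c z, j z = i c → j (τ z) = i (σ c)

/-- Let `k ⊆ K ⊆ Ω` and `F ⊆ M ⊆ Ω` be fields.  A splitting of `Gal(M/F) → Gal(K/k)`: a continuous
homomorphism `s` from `Gal(K/k)` to `Gal(M/F)` such that `s(σ)` acts as `σ` on the elements of
`K ∩ M`. -/
structure Splitting (K M : Type*) [Field K] [Field M] [Algebra k K] [Algebra F M] [Algebra K Ω]
    [Algebra M Ω] where
  /-- the homomorphism `Gal(K/k) → Gal(M/F)` -/
  toHom : (K ≃ₐ[k] K) →* (M ≃ₐ[F] M)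
  cont : Continuous toHom
  compat : ∀ σ : K ≃ₐ[k] K, ActsAs (algebraMap K Ω) (algebraMap M Ω) σ (toHom σ)

/-- The sections of `π₁(U) = Gal(F_U/F) → G_k`: the continuous homomorphisms `s` from
`G_k = Gal(k̄/k)` to `Gal(F_U/F)`, where `k̄` is the algebraic closure of `k` in `Ω`, such that
`s(σ)` acts as `σ` on the elements of `k̄`. -/
def GaloisSection (U : Set (ValuationSubring F)) : Type w :=
  Splitting k F Ω (algebraicClosure k Ω) (unramified F Ω U)

end definitions

/-- The number of prime factors `l` of the numerator and the denominator of `r`, counted with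
multiplicity, such that `l` is a nonresidue modulo `p` and modulo `q`. -/
def inertCount (p q : ℕ) [Fact p.Prime] [Fact q.Prime] (r : ℚ) : ℕ :=
  ∑ l ∈ (r.num.natAbs * r.den).primeFactors.filter
    (fun l : ℕ => legendreSym p l = -1 ∧ legendreSym q l = -1),
    (r.num.natAbs * r.den).factorization l

/-- The polynomial
`∏_{j ∈ S} (x² - p j²) ∏_{j ∈ T} (x² - q j²) ∏_{j ∈ R} (x² - p q j²)`. -/
noncomputable def triple {k : Type u} [Field k] (p q : ℕ) (S T R : Finset k) : k[X] :=
  (∏ j ∈ S, (X ^ 2 - C (p * j ^ 2))) * (∏ j ∈ T, (X ^ 2 - C (q * j ^ 2))) *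
    ∏ j ∈ R, (X ^ 2 - C (p * q * j ^ 2))

/-- `S` is nonempty and `i + j ≠ 0` for all `i`, `j` in `S`, including `i = j`: so `S` does not
contain `0` and the squares of its elements are distinct. -/
def Good {k : Type u} [Field k] (S : Finset k) : Prop :=
  S.Nonempty ∧ ∀ i ∈ S, ∀ j ∈ S, i + j ≠ 0

/-- The conditions on `p`, `q` and `a`: the primes `p` and `q` are congruent to `1` modulo `4`,
`(q/p) = 1`, `a ≠ 0` and `inertCount p q (N a)` is odd, where `N` is the norm from `k` to `ℚ`. -/
structure Admissible {k : Type u} [Field k] [NumberField k] (p q : ℕ) [Fact p.Prime]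
    [Fact q.Prime] (a : k) : Prop where
  p_mod : p % 4 = 1
  q_mod : q % 4 = 1
  symbol : legendreSym p q = 1
  ne_zero : a ≠ 0
  odd : Odd (inertCount p q (Algebra.norm ℚ a))

/-- The curve `a y² = f(x)` has a point over the extension `L` of `k`. -/
def HasPoint {k : Type u} [Field k] (a : k) (f : k[X]) (L : Type x) [Field L] [Algebra k L] :
    Prop :=
  ∃ x y : L, algebraMap k L a * y ^ 2 = aeval x f

/-- The curve `a y² = f(x)` has a point over every extension of `k` that contains `ℝ` or one of the
fields `ℚ_l`; so it has points over all completions of a number field `k`. -/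
def LocallySoluble {k : Type u} [Field k] (a : k) (f : k[X]) : Prop :=
  ∀ (L : Type x) [Field L] [Algebra k L],
    (∃ (l : ℕ) (_ : Fact l.Prime), Nonempty (ℚ_[l] →+* L)) ∨ Nonempty (ℝ →+* L) → HasPoint a f L

/-- Let `F` be any field over `k` that contains a point `(x, y)` of the curve `a y² = f(x)` with
`y ≠ 0`, for instance the function field of the curve, and let `Ω` be an algebraic closure of `F`.
Then for every set `U` of valuation rings of `F` over `k` that contain `x` there is no section of
`π₁(U) → G_k`.  If `F` is the function field of the curve, such `U` are given by all open subcurves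
of the affine curve `a y² = f(x)`. -/
def AffineNoSection {k : Type u} [Field k] (a : k) (f : k[X]) : Prop :=
  ∀ (F : Type v) (Ω : Type w) [Field F] [Field Ω] [Algebra k F] [Algebra F Ω] [Algebra k Ω]
    [IsScalarTower k F Ω] [IsAlgClosure F Ω] (x y : F) (U : Set (ValuationSubring F)),
    y ≠ 0 → algebraMap k F a * y ^ 2 = aeval x f →
    (∀ O ∈ U, x ∈ O ∧ ∀ c : k, algebraMap k F c ∈ O) → IsEmpty (GaloisSection k F Ω U)

/-- The same for all sets `U` of valuation rings of `F` over `k`.  If `F` is the function field of
the curve, such `U` are given by all open subcurves of the smooth projective curve, including the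
projective curve itself. -/
def ProjectiveNoSection {k : Type u} [Field k] (a : k) (f : k[X]) : Prop :=
  ∀ (F : Type v) (Ω : Type w) [Field F] [Field Ω] [Algebra k F] [Algebra F Ω] [Algebra k Ω]
    [IsScalarTower k F Ω] [IsAlgClosure F Ω] (x y : F) (U : Set (ValuationSubring F)),
    y ≠ 0 → algebraMap k F a * y ^ 2 = aeval x f →
    (∀ O ∈ U, ∀ c : k, algebraMap k F c ∈ O) → IsEmpty (GaloisSection k F Ω U)

/-- Let `k` be a number field, `(p, q, a)` admissible, `S`, `T`, `R` nonempty finite subsets of `k`
without opposite elements, `f = triple p q S T R`.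

* `f` is separable of degree `2 (|S| + |T| + |R|)`, so `a y² = f(x)` has genus `|S|+|T|+|R|-1`;
* the curve has points over all completions of `k`;
* it has no points over `k`, and neither has its smooth projective model, the two points at
  infinity being defined over `k(√a)`;
* for the affine curve `a y² = f(x)` there is no section of `π₁(U) → G_k`;
* the same holds for the smooth projective curve if `|S|`, `|T|`, `|R|` are even.

For every number field `k` there are `a` and infinitely many pairs `(p, q)` as above. -/
theorem result :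
    (∀ (k : Type u) [Field k] [NumberField k] (p q : ℕ) [Fact p.Prime] [Fact q.Prime] (a : k)
        (S T R : Finset k), Admissible p q a → Good S → Good T → Good R →
      ∀ f : k[X], f = triple p q S T R →
      f.Separable ∧ f.natDegree = 2 * (S.card + T.card + R.card) ∧
      LocallySoluble.{u, x} a f ∧ ¬ HasPoint a f k ∧ ¬ IsSquare a ∧
      AffineNoSection.{u, v, w} a f ∧
      (Even S.card → Even T.card → Even R.card → ProjectiveNoSection.{u, v, w} a f)) ∧
    ∀ (k : Type u) [Field k] [NumberField k], ∃ a : k, ∀ B : ℕ,
      ∃ (p q : ℕ) (_ : Fact p.Prime) (_ : Fact q.Prime), B < p ∧ B < q ∧ Admissible p q a := by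
  constructor
  · intro k _ _ p q _ _ a S T R hpqa hS hT hR f hf
    obtain ⟨hp, hq, hpq, ha, hodd⟩ := hpqa
    obtain ⟨hSn, hS⟩ := hS
    obtain ⟨hTn, hT⟩ := hT
    obtain ⟨hRn, hR⟩ := hR
    subst hf
    have key : ∀ (F : Type v) (Ω : Type w) [Field F] [Field Ω] [Algebra k F] [Algebra F Ω]
        [Algebra k Ω] [IsScalarTower k F Ω] [IsAlgClosure F Ω] (x y : F)
        (U : Set (ValuationSubring F)), y ≠ 0 →
        algebraMap k F a * y ^ 2 = aeval x (triple p q S T R) →
        (∀ O ∈ U, ∀ c : k, algebraMap k F c ∈ O) →
        ((Even S.card ∧ Even T.card ∧ Even R.card) ∨ ∀ O ∈ U, x ∈ O) →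
        IsEmpty (GaloisSection k F Ω U) := by
      intro F Ω _ _ _ _ _ _ _ x y U hy hxy hU hinf
      have h1 : IsAlgClosed Ω := IsAlgClosure.isAlgClosed F
      have h2 : Algebra.IsAlgebraic F Ω := IsAlgClosure.isAlgebraic
      have h3 := Pool.Agent.W620.SC.family_no_section hp hq hpq ha hodd S T R (F := F) (Ω := Ω)
        hS hT hR U hU x y hy hxy hinf
      exact ⟨fun s => h3.false ⟨s.toHom, s.cont, s.compat⟩⟩
    refine ⟨Pool.Agent.W620.SC.rhs_separable hp hq hpq ha hodd S T R hS hT hR,
      Pool.Agent.W620.SC.rhs_natDegree (p := p) (q := q) S T R, ?_, ?_,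
      (Pool.Agent.W620.SC.not_isSquare_nf hp hq hpq ha hodd).2.2.2, ?_, ?_⟩
    · intro L _ _ hL
      obtain ⟨x, hx⟩ := Pool.Agent.W620.SC.family_local hp hq hpq S T R hSn hTn hRn hL
      refine ⟨x, 0, ?_⟩
      have hx' : aeval x (triple p q S T R) = 0 := hx
      rw [hx', zero_pow two_ne_zero, mul_zero]
    · rintro ⟨x, y, h⟩
      exact Pool.Agent.W620.SC.family_no_points hp hq hpq ha hodd S T R hS hT hR x y h
    · intro F Ω _ _ _ _ _ _ _ x y U hy hxy hU
      exact key F Ω x y U hy hxy (fun O hO => (hU O hO).2) (Or.inr fun O hO => (hU O hO).1)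
    · intro e1 e2 e3 F Ω _ _ _ _ _ _ _ x y U hy hxy hU
      exact key F Ω x y U hy hxy hU (Or.inl ⟨e1, e2, e3⟩)
  · intro k _ _
    obtain ⟨a, ha, h⟩ := Pool.Agent.W620.SC.exists_pqa k
    refine ⟨a, fun B => ?_⟩
    obtain ⟨p, q, h1, h2, h3, h4, h5, h6, h7, h8⟩ := h B
    exact ⟨p, q, h1, h2, h3, h4, h5, h6, h7, ha, h8⟩

end Pool.Agent.Results.MP_2f3286_ag.LocallySolubleFamily
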