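import Pool.Agent.W623.SecC.Glob

/-!
# The section conjecture for 100% of the quadratic twists of a hyperelliptic curve

Let `K` be a number field and `f ∈ K[x]` a separable polynomial of even degree `≥ 4`, such that some
element of the Galois group of `f` fixes no root of `f`; this is so for all irreducible `f`.  Then
for all `a ∈ O_K` outside a set of density zero, the curve `a y² = f(x)`, and more generally every
curve `a yⁿ = f(x)` with `n` even, has no point over `K`, and its fundamental group has no section,
also when any set of closed points of the curve is removed.  So these curves, and all smooth curves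
over `K` that dominate one of them, satisfy the section conjecture.  The set of the exceptional `a`
has density zero in a strong sense: for every `ε > 0` there is an ideal `I ≠ 0` such that the
exceptional `a` lie in at most `ε #(O_K/I)` residue classes modulo `I`.

No condition on the degrees of the factors of `f` is needed.  If `f` is the product of two
irreducible polynomials of odd degree, then the curve has index 1, so that the abelianised
fundamental group has a section, and the obstruction is not abelian.

The fundamental group is described through valuations.  Let `U` be a smooth geometrically connected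
curve over `k` with function field `F`, let `Ω` be an algebraic closure of `F`, and let `F_U` be the
maximal extension of `F` inside `Ω` which is unramified over the closed points of `U`, that is, over
their local rings, which are valuation rings of `F`.  Then `π₁(U) = Gal(F_U/F)`, and the map
`π₁(U) → G_k` is the restriction of automorphisms to the algebraic closure of `k` in `Ω`.

Proof.  By Chebotarev there are many primes `v` modulo which `f` is separable, of the same degree,
without a root, and almost every `a` has valuation 1 at one of them.  Let `s` be a section for such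
an `a`.  Let `S` be a subfield of `k̄` stable under Frobenius, containing the roots `θ` of `f` and
the square roots of its `v`-units, whose value group at `v` is the one of `K`.  For two roots the
function `(x - θ)/(x - θ')` has a square root in `F_U`; so it is fixed by `s(G_S)` and it is
`π^j β²` with `β` fixed by `s(G_S)`, where `π` is a uniformiser.  The parities of the `j` define a
partition of the roots in two classes with an odd number of elements, stable under Frobenius.  If
both classes have at least three elements, take four roots, two in each class.  They give an
elliptic curve `w² = (z - e₀)(z - e₁)(z - e₂)` with good reduction and a point `(z, w)` fixed by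
`s(G_S)` and by `s(φ)` for a power `φ` of Frobenius, such that some `z - e_i` has odd parity.  The
functions with divisor `2ⁿ(P - ∞)`, for the points `P` of order dividing `2ⁿ`, have `2ⁿ`-th roots in
`F_U`, and this gives a homomorphism from the group of these points to `ℤ/2ⁿ` which is invariant
under `φ`.  As only finitely many points of order a power of `2` are fixed by `φ`, it is killed by an
integer that does not depend on `n`, and so the parities of the `z - e_i` are even, which is a
contradiction.  So one of the classes has one element, which is fixed by Frobenius, and `f` has a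
root modulo `v`.
-/

open Polynomial NumberField

namespace Pool.Agent.Results.MP_2f3286_ag.QuadraticTwists

universe u v w

section definitions

variable (k : Type u) (F : Type v) (Ω : Type w) [Field k] [Field F] [Field Ω] [Algebra k F]
  [Algebra F Ω] [Algebra k Ω]

/-- The inertia group of the valuation ring `W` of `Ω`, as a subgroup of `Gal(Ω/F)`: the
automorphisms of `Ω` over `F` that map `W` onto itself and act as the identity on its residue
field. -/
noncomputable def inertia (W : ValuationSubring Ω) : Subgroup (Ω ≃ₐ[F] Ω) :=
  (W.inertiaSubgroup F).map (W.decompositionSubgroup F).subtype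

/-- `F_U`, for a set `U` of valuation rings of `F`: the elements of `Ω` fixed by the inertia groups
of all valuation rings `W` of `Ω` with `W ∩ F ∈ U`.  If `Ω` is an algebraic closure of a field `F`
of characteristic zero, this is the maximal extension of `F` in `Ω` unramified over `U`. -/
noncomputable def unramified (U : Set (ValuationSubring F)) : IntermediateField F Ω :=
  ⨅ W : {W : ValuationSubring Ω // W.comap (algebraMap F Ω) ∈ U},
    IntermediateField.fixedField (inertia F Ω W.1)

/-- The map `τ : M → M` acts as `σ : K → K` on the elements that the fields `K` and `M` have in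
common when they are regarded as subfields of `Ω` through `i` and `j`. -/
def ActsAs {K M Ω : Type*} [Field K] [Field M] [Field Ω] (i : K →+* Ω) (j : M →+* Ω) (σ : K → K)
    (τ : M → M) : Prop :=
  ∀ c z, j z = i c → j (τ z) = i (σ c)

/-- Let `k ⊆ K ⊆ Ω` and `F ⊆ M ⊆ Ω` be fields.  A splitting of `Gal(M/F) → Gal(K/k)`: a continuous
homomorphism `s` from `Gal(K/k)` to `Gal(M/F)` such that `s(σ)` acts as `σ` on the elements of
`K ∩ M`. -/
structure Splitting (K M : Type*) [Field K] [Field M] [Algebra k K] [Algebra F M] [Algebra K Ω]
    [Algebra M Ω] where
  /-- the homomorphism `Gal(K/k) → Gal(M/F)` -/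
  toHom : (K ≃ₐ[k] K) →* (M ≃ₐ[F] M)
  cont : Continuous toHom
  compat : ∀ σ : K ≃ₐ[k] K, ActsAs (algebraMap K Ω) (algebraMap M Ω) σ (toHom σ)

/-- The sections of `π₁(U) = Gal(F_U/F) → G_k`: the continuous homomorphisms `s` from
`G_k = Gal(k̄/k)` to `Gal(F_U/F)`, where `k̄` is the algebraic closure of `k` in `Ω`, such that
`s(σ)` acts as `σ` on the elements of `k̄`. -/
def GaloisSection (U : Set (ValuationSubring F)) : Type w :=
  Splitting k F Ω (algebraicClosure k Ω) (unramified F Ω U)

end definitions

/-- The smooth projective curve `a yⁿ = f(x)`, where `n` divides the degree of `f`, has no point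
over `k`: neither in the affine part nor at infinity. -/
def NoPoint {k : Type u} [Field k] (n : ℕ) (a : k) (f : k[X]) : Prop :=
  (¬ ∃ x y : k, a * y ^ n = f.eval x) ∧ ¬ ∃ r : k, a * r ^ n = f.leadingCoeff

/-- Let `F` be any field over `k` that contains a point `(x, y)` of the curve `a yⁿ = f(x)`, for
instance the function field of the curve, and let `Ω` be an algebraic closure of `F`.  Then for
every set `U` of valuation rings of `F` over `k` there is no section of `π₁(U) → G_k`.  If `F` is the
function field of the curve, such `U` are given by the smooth projective curve and by all its open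
subcurves. -/
def NoSection {k : Type u} [Field k] (n : ℕ) (a : k) (f : k[X]) : Prop :=
  ∀ (F : Type v) (Ω : Type w) [Field F] [Field Ω] [Algebra k F] [Algebra F Ω] [Algebra k Ω]
    [IsScalarTower k F Ω] [IsAlgClosure F Ω] (x y : F) (U : Set (ValuationSubring F)),
    algebraMap k F a * y ^ n = aeval x f → (∀ O ∈ U, ∀ c : k, algebraMap k F c ∈ O) →
      IsEmpty (GaloisSection k F Ω U)

/-- Some element of the Galois group of `K` fixes no root of `f`. -/
def HasDerangement {K : Type u} [Field K] (f : K[X]) : Prop :=
  ∃ σ : AlgebraicClosure K ≃ₐ[K] AlgebraicClosure K,
    ∀ θ : AlgebraicClosure K, aeval θ f = 0 → σ θ ≠ θ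

/-- The integers `a` of `K` such that one of the curves `a yⁿ = f(x)` with `n ≥ 2` even has a point
or a section. -/
def Exceptional {K : Type u} [Field K] (f : K[X]) : Set (𝓞 K) :=
  {a | ¬ ∀ n : ℕ, 0 < n → Even n →
    NoPoint n (algebraMap (𝓞 K) K a) f ∧ NoSection.{u, v, w} n (algebraMap (𝓞 K) K a) f}

/-- Density zero: for every `ε > 0` there is an ideal `I ≠ 0` such that `E` lies in at most
`ε #(O_K/I)` residue classes modulo `I`. -/
def DensityZero {K : Type u} [Field K] (E : Set (𝓞 K)) : Prop :=
  ∀ ε : ℝ, 0 < ε → ∃ I : Ideal (𝓞 K), I ≠ ⊥ ∧
    (Set.ncard ((Ideal.Quotient.mk I) '' E) : ℝ) ≤ ε * Nat.card (𝓞 K ⧸ I)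

/-- Let `K` be a number field and `f` a separable polynomial over `K` of even degree at least 4 that
is irreducible or, more generally, has a Galois group with an element that fixes no root.  Then for
all `a ∈ O_K` outside a set of density zero, for all even `n ≥ 2`, the curve `a yⁿ = f(x)` has no
point over `K`, and the fundamental groups of its open subcurves and of all smooth curves over `K`
that dominate it have no sections. -/
theorem result (K : Type u) [Field K] [NumberField K] (f : K[X]) (hf : f.Separable)
    (hev : Even f.natDegree) (h4 : 4 ≤ f.natDegree) (h : Irreducible f ∨ HasDerangement f) :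
    DensityZero (Exceptional.{u, v, w} f) := by
  have hσ : HasDerangement f := by
    rcases h with h | h
    · exact Pool.Agent.W52.SecC.D3.partD3 K f h (by omega)
    · exact h
  intro ε hε
  obtain ⟨I, hI, hIE⟩ := Pool.Agent.W623.SecC.density.{u, v, w} f hf hev h4 hσ ε hε
  refine ⟨I, hI, le_trans ?_ hIE⟩
  have hfin : Finite (𝓞 K ⧸ I) := Ideal.finiteQuotientOfFreeOfNeBot _ hI
  have hsub : (Exceptional.{u, v, w} f : Set (𝓞 K)) ⊆
      {a : 𝓞 K | ¬ Pool.Agent.W623.SecC.Fine.{u, v, w} (algebraMap (𝓞 K) K a) f} := by
    intro a ha hfine
    obtain ⟨h1, h2, h3⟩ := hfine
    apply ha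
    intro n hn hne
    obtain ⟨m, rfl⟩ := hne
    refine ⟨⟨?_, ?_⟩, ?_⟩
    · rintro ⟨x, y, hxy⟩
      apply h2 x (y ^ m)
      rw [← hxy, ← pow_mul, mul_two]
    · rintro ⟨r, hr⟩
      apply h3 (r ^ m)
      rw [← hr, ← pow_mul, mul_two]
    · intro F Ω _ _ _ _ _ _ _ x y U hxy hU
      have hcl : IsAlgClosed Ω := IsAlgClosure.isAlgClosed F
      have halg : Algebra.IsAlgebraic F Ω := IsAlgClosure.isAlgebraic
      have h4 := h1 F Ω U hU x (y ^ m) (by rw [← hxy, ← pow_mul, mul_two])
      exact ⟨fun s => h4.false ⟨s.toHom, s.cont, s.compat⟩⟩
  exact_mod_cast Set.ncard_le_ncard (Set.image_mono hsub) (Set.toFinite _)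

end Pool.Agent.Results.MP_2f3286_ag.QuadraticTwists
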