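import Pool.Agent.W620.SE.Final

/-!
# The section conjecture for superelliptic curves `a yⁿ = f(x)` with `f` a product of norms

Let `k` be any field of characteristic zero, `K_i` finitely many finite extensions of `k`, `h_i` a
polynomial over `K_i`, and suppose that `f = ∏ N(h_i)`, the product of all the conjugates of the
`h_i`, is separable.  Let `a ∈ k^*` be outside the subgroup `k*ⁿ ∏ N(K_i^*)`.  Then the affine curve
`a yⁿ = f(x)` has no point over `k`, and its fundamental group has no section at all.  The same
holds for the smooth projective curve when `n` divides the degrees of the `h_i`.  So the section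
conjecture holds for these curves, and for all smooth curves over `k` with a nonconstant map to one
of them.

Second part: if `O` is an integrally closed domain with fraction field `k`, for instance a discrete
valuation ring, if `n ∣ [K_i : k]` and every nonzero element of `K_i` is the product of an element of
`k` and a unit of the integral closure of `O` (the prime of `O` is inert and unramified in the
`K_i`), then the condition on `a` holds as soon as `a` is not the product of an `n`-th power and a
unit of `O`, that is, if `n` does not divide the valuation of `a`.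

The fundamental group is described through valuations.  Let `U` be a smooth geometrically connected
curve over `k` with function field `F`, let `Ω` be an algebraic closure of `F`, and let `F_U` be the
maximal extension of `F` inside `Ω` which is unramified over the closed points of `U`, that is, over
their local rings, which are valuation rings of `F`.  Then `π₁(U) = Gal(F_U/F)`, and the map
`π₁(U) → G_k` is the restriction of automorphisms to the algebraic closure of `k` in `Ω`.

Proof.  The function `h_i(x)` on the curve over `K_i` has a divisor divisible by `n`, because the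
conjugate factors of `f` are coprime, so its `n`-th root `w_i` lies in `F_U`.  Let `s` be a section.
Over an open subgroup of `G_k` it fixes `w_i`, and Hilbert 90 gives a constant `b_i` such that
`b_i w_i` is fixed by `s(Gal(k̄/K_i))`.  The norms of the `b_i w_i` multiply to an element whose
`n`-th power is `a yⁿ` times the norms of the `b_iⁿ`, and this gives `a ∈ k*ⁿ ∏ N(K_i^*)`.
-/

open Polynomial

namespace Pool.Agent.Results.MP_2f3286_ag.SuperellipticNorm

universe u v w

section definitions

variable (k : Type u) (F : Type v) (Ω : Type w) [Field k] [Field F] [Field Ω] [Algebra k F]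
  [Algebra F Ω] [Algebra k Ω]

/-- The inertia group of the valuation ring `W` of `Ω`, as a subgroup of `Gal(Ω/F)`: the
automorphisms of `Ω` over `F` that map `W` onto itself and act as the identity on its residue
field. -/
noncomputable def inertia (W : ValuationSubring Ω) : Subgroup (Ω ≃ₐ[F] Ω) :=
  (W.inertiaSubgroup F).map (W.decompositionSubgroup F).subtype

/-- `F_U`, for a set `U` of valuation rings of `F`: the elements of `Ω` fixed by the inertia groups
of all valuation rings `W` of `Ω` with `W ∩ F ∈ U`.  If `Ω` is an algebraic closure of a field `F`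
of characteristic zero, this is the maximal extension of `F` in `Ω` unramified over `U`. -/
noncomputable def unramified (U : Set (ValuationSubring F)) : IntermediateField F Ω :=
  ⨅ W : {W : ValuationSubring Ω // W.comap (algebraMap F Ω) ∈ U},
    IntermediateField.fixedField (inertia F Ω W.1)

/-- The map `τ : M → M` acts as `σ : K → K` on the elements that the fields `K` and `M` have in
common when they are regarded as subfields of `Ω` through `i` and `j`. -/
def ActsAs {K M Ω : Type*} [Field K] [Field M] [Field Ω] (i : K →+* Ω) (j : M →+* Ω) (σ : K → K)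
    (τ : M → M) : Prop :=
  ∀ c z, j z = i c → j (τ z) = i (σ c)

/-- Let `k ⊆ K ⊆ Ω` and `F ⊆ M ⊆ Ω` be fields.  A splitting of `Gal(M/F) → Gal(K/k)`: a continuous
homomorphism `s` from `Gal(K/k)` to `Gal(M/F)` such that `s(σ)` acts as `σ` on the elements of
`K ∩ M`. -/
structure Splitting (K M : Type*) [Field K] [Field M] [Algebra k K] [Algebra F M] [Algebra K Ω]
    [Algebra M Ω] where
  /-- the homomorphism `Gal(K/k) → Gal(M/F)` -/
  toHom : (K ≃ₐ[k] K) →* (M ≃ₐ[F] M)
  cont : Continuous toHom
  compat : ∀ σ : K ≃ₐ[k] K, ActsAs (algebraMap K Ω) (algebraMap M Ω) σ (toHom σ)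

/-- The sections of `π₁(U) = Gal(F_U/F) → G_k`: the continuous homomorphisms `s` from
`G_k = Gal(k̄/k)` to `Gal(F_U/F)`, where `k̄` is the algebraic closure of `k` in `Ω`, such that
`s(σ)` acts as `σ` on the elements of `k̄`. -/
def GaloisSection (U : Set (ValuationSubring F)) : Type w :=
  Splitting k F Ω (algebraicClosure k Ω) (unramified F Ω U)

end definitions

/-- `f` is the product of the norms of the polynomials `h i` over the finite extensions `K i` of
`k`: the product of all the conjugates of the `h i`. -/
def IsProductOfNorms {k : Type u} [Field k] {I : Type} [Fintype I] (K : I → Type u)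
    [∀ i, Field (K i)] [∀ i, Algebra k (K i)] [∀ i, FiniteDimensional k (K i)]
    (h : ∀ i, (K i)[X]) (f : k[X]) : Prop :=
  f.map (algebraMap k (AlgebraicClosure k)) =
    ∏ i, ∏ φ : K i →ₐ[k] AlgebraicClosure k, (h i).map (φ : K i →+* AlgebraicClosure k)

/-- `a` lies in `k*ⁿ ∏ N(K i*)` -/
def InNormGroup {k : Type u} [Field k] {I : Type} [Fintype I] (K : I → Type u)
    [∀ i, Field (K i)] [∀ i, Algebra k (K i)] (n : ℕ) (a : k) : Prop :=
  ∃ (r : k) (c : ∀ i, K i), a = r ^ n * ∏ i, Algebra.norm k (c i)

/-- Let `F` be any field over `k` that contains a point `(x, y)` of the curve `a yⁿ = f(x)` with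
`y ≠ 0`, for instance the function field of the curve, and let `Ω` be an algebraic closure of `F`.
Then for every set `U` of valuation rings of `F` over `k` that contain `x` there is no section of
`π₁(U) → G_k`.  If `F` is the function field of the curve, such `U` are given by all open subcurves
of the affine curve `a yⁿ = f(x)`. -/
def AffineNoSection {k : Type u} [Field k] (n : ℕ) (a : k) (f : k[X]) : Prop :=
  ∀ (F : Type v) (Ω : Type w) [Field F] [Field Ω] [Algebra k F] [Algebra F Ω] [Algebra k Ω]
    [IsScalarTower k F Ω] [IsAlgClosure F Ω] (x y : F) (U : Set (ValuationSubring F)),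
    y ≠ 0 → algebraMap k F a * y ^ n = aeval x f →
    (∀ O ∈ U, x ∈ O ∧ ∀ c : k, algebraMap k F c ∈ O) → IsEmpty (GaloisSection k F Ω U)

/-- The same for all sets `U` of valuation rings of `F` over `k`.  If `F` is the function field of
the curve, such `U` are given by all open subcurves of the smooth projective curve, including the
projective curve itself. -/
def ProjectiveNoSection {k : Type u} [Field k] (n : ℕ) (a : k) (f : k[X]) : Prop :=
  ∀ (F : Type v) (Ω : Type w) [Field F] [Field Ω] [Algebra k F] [Algebra F Ω] [Algebra k Ω]
    [IsScalarTower k F Ω] [IsAlgClosure F Ω] (x y : F) (U : Set (ValuationSubring F)),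
    y ≠ 0 → algebraMap k F a * y ^ n = aeval x f →
    (∀ O ∈ U, ∀ c : k, algebraMap k F c ∈ O) → IsEmpty (GaloisSection k F Ω U)

/-- Every nonzero element of `K` is the product of an element of `k` and a unit of the integral
closure of `O`.  If `O` is a discrete valuation ring with fraction field `k`, this says that there
is only one prime of `K` above it and that it is unramified over `k`. -/
def Inert (O k K : Type*) [CommRing O] [Field k] [Field K] [Algebra O K] [Algebra k K] : Prop :=
  ∀ c : K, c ≠ 0 → ∃ b : k, b ≠ 0 ∧ IsIntegral O (algebraMap k K b * c) ∧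
    IsIntegral O (algebraMap k K b * c)⁻¹

/-- Let `k` be a field of characteristic zero, `K i` finite extensions of `k`, `f` the product of
the norms of `h i ∈ (K i)[x]`, separable, and `a ∈ k*` not in `k*ⁿ ∏ N(K i*)`.

* the curve `a yⁿ = f(x)` has no point over `k` and `π₁` of the affine curve has no section;
* if `n` divides the degrees of the `h i`, then there are no points at infinity over `k` either, and
  `π₁` of the smooth projective curve has no section.

The condition on `a` holds if `O` is an integrally closed domain with fraction field `k` that is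
inert in the `K i`, `n` divides the degrees `[K i : k]` and `a` is not the product of an `n`-th
power and a unit of `O`. -/
theorem result (k : Type u) [Field k] [CharZero k] (n : ℕ) (hn : 0 < n) (I : Type) [Fintype I]
    (K : I → Type u) [∀ i, Field (K i)] [∀ i, Algebra k (K i)] [∀ i, FiniteDimensional k (K i)]
    (a : k) (ha : a ≠ 0) :
    (∀ (h : ∀ i, (K i)[X]) (f : k[X]), IsProductOfNorms K h f → f.Separable →
      ¬ InNormGroup K n a →
      (¬ ∃ x y : k, a * y ^ n = f.eval x) ∧ AffineNoSection.{u, v, w} n a f ∧
      ((∀ i, n ∣ (h i).natDegree) → (¬ ∃ r : k, a * r ^ n = f.leadingCoeff) ∧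
        ProjectiveNoSection.{u, v, w} n a f)) ∧
    ∀ (O : Type u) [CommRing O] [IsDomain O] [IsIntegrallyClosed O] [Algebra O k]
      [IsFractionRing O k] [∀ i, Algebra O (K i)] [∀ i, IsScalarTower O k (K i)],
      (∀ i, Inert O k (K i) ∧ n ∣ Module.finrank k (K i)) →
      (¬ ∃ (r : k) (u : Oˣ), a = r ^ n * algebraMap O k u) → ¬ InNormGroup K n a := by
  constructor
  · intro h f hfac hf hnot
    have key : ∀ (F : Type v) (Ω : Type w) [Field F] [Field Ω] [Algebra k F] [Algebra F Ω]
        [Algebra k Ω] [IsScalarTower k F Ω] [IsAlgClosure F Ω] (x y : F)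
        (U : Set (ValuationSubring F)), y ≠ 0 →
        algebraMap k F a * y ^ n = aeval x f →
        (∀ O ∈ U, ∀ c : k, algebraMap k F c ∈ O) →
        ((∀ i, n ∣ (h i).natDegree) ∨ ∀ O ∈ U, x ∈ O) →
        IsEmpty (GaloisSection k F Ω U) := by
      intro F Ω _ _ _ _ _ _ _ x y U hy hxy hU hinf
      have h1 : IsAlgClosed Ω := IsAlgClosure.isAlgClosed F
      have h2 : Algebra.IsAlgebraic F Ω := IsAlgClosure.isAlgebraic
      have h3 := Pool.Agent.W620.SE.no_section_of_norm K h f (F := F) (Ω := Ω) U hU hn hf hfac a ha
        x y hy hxy hinf hnot
      exact ⟨fun s => h3.false ⟨s.toHom, s.cont, s.compat⟩⟩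
    refine ⟨?_, ?_, ?_⟩
    · rintro ⟨x, y, hxy⟩
      exact Pool.Agent.W620.SE.no_point K h f hn hf hfac a hnot x y hxy
    · intro F Ω _ _ _ _ _ _ _ x y U hy hxy hU
      exact key F Ω x y U hy hxy (fun O hO => (hU O hO).2) (Or.inr fun O hO => (hU O hO).1)
    · intro hdeg
      refine ⟨?_, ?_⟩
      · rintro ⟨r, hr⟩
        exact Pool.Agent.W620.SE.no_infinity K h f hfac a hf.ne_zero hnot r hr
      · intro F Ω _ _ _ _ _ _ _ x y U hy hxy hU
        exact key F Ω x y U hy hxy hU (Or.inl hdeg)
  · intro O _ _ _ _ _ _ _ hO hna
    exact Pool.Agent.W620.SE.inert K O (fun i => (hO i).2) (fun i => (hO i).1) a ha hna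

end Pool.Agent.Results.MP_2f3286_ag.SuperellipticNorm
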